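import Pool.Agent.MP65cbfa.Cycle

/-!
# The cochain detecting the cycle
-/

set_option autoImplicit false

namespace Pool.Agent.MP65cbfa

open Finsupp

variable {V : Type}

/-- The axioms of a metric that we use. -/
structure IsMet (d : V → V → ℕ∞) : Prop where
  tri : ∀ x y z, d x z ≤ d x y + d y z
  pos : ∀ x y, x ≠ y → 1 ≤ d x y

theorem d6_tri (a b c : Fin 6) : d6 a c ≤ d6 a b + d6 b c := by
  revert a b c; decide

theorem d6_self (a : Fin 6) : d6 a a = 0 := by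
  revert a; decide

theorem phi4_len : ∀ b1 b2 b3 b4 : Fin 6, phi4 b1 b2 b3 b4 ≠ 0 →
    d6 0 b1 + d6 b1 b2 + d6 b2 b3 + d6 b3 b4 + d6 b4 1 = 7 := by
  decide +kernel

open Classical in
/-- The cochain on `6`-tuples in `V` with fixed end points `e 0`, `e 1`. -/
noncomputable def F (e : Fin 6 → V) (ρ : V → Fin 6) (x : Fin 6 → V) : ℤ :=
  if x 0 = e 0 ∧ x 5 = e 1 then phi4 (ρ (x 1)) (ρ (x 2)) (ρ (x 3)) (ρ (x 4)) else 0

/-- The linear extension of the cochain. -/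
noncomputable def Fl (e : Fin 6 → V) (ρ : V → Fin 6) : ((Fin 6 → V) →₀ ℤ) →ₗ[ℤ] ℤ :=
  Finsupp.linearCombination ℤ (F e ρ)

theorem Fl_single (e : Fin 6 → V) (ρ : V → Fin 6) (x : Fin 6 → V) :
    Fl e ρ (Finsupp.single x 1) = F e ρ x := by
  simp [Fl]

open Classical in
theorem Fl_face (d : V → V → ℕ∞) (e : Fin 6 → V) (ρ : V → Fin 6) (i : Fin 5) (y : Fin 7 → V) :
    Fl e ρ (face d i y) =
      if d (y i.castSucc.castSucc) (y i.succ.succ) =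
        d (y i.castSucc.castSucc) (y i.castSucc.succ) + d (y i.castSucc.succ) (y i.succ.succ)
      then F e ρ (fun j => y (i.castSucc.succ.succAbove j)) else 0 := by
  unfold face
  split_ifs with h
  · exact Fl_single _ _ _
  · simp

theorem key_nat (m1 m2 m3 m4 m5 m6 n1 n2 n3 n4 n5 n6 : ℕ) (h1 : n1 ≤ m1) (h2 : n2 ≤ m2)
    (h3 : n3 ≤ m3) (h4 : n4 ≤ m4) (h5 : n5 ≤ m5) (h6 : n6 ≤ m6)
    (hm : m1 + m2 + m3 + m4 + m5 + m6 = 7) (hn : 7 ≤ n1 + n2 + n3 + n4 + n5 + n6) :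
    n1 = m1 ∧ n2 = m2 ∧ n3 = m3 ∧ n4 = m4 ∧ n5 = m5 ∧ n6 = m6 := by
  omega

open Classical in
/-- One term of the coboundary. -/
theorem term_eq {d : V → V → ℕ∞} (hd : IsMet d) {ρ : V → Fin 6}
    (hρ : ∀ x y, (d6 (ρ x) (ρ y) : ℕ∞) ≤ d x y) (x y z : V) (p : ℤ) (m n : ℕ)
    (hm : d x y = m) (hn : d y z = n) (hm' : d6 (ρ x) (ρ y) = m) (hn' : d6 (ρ y) (ρ z) = n)
    (h : p ≠ 0 → d6 (ρ x) (ρ z) = m + n) :
    (if d x z = d x y + d y z then p else 0) = (if cnd (ρ x) (ρ y) (ρ z) = true then p else 0) := by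
  by_cases hp : p = 0
  · simp [hp]
  · have h1 := h hp
    have h2 : cnd (ρ x) (ρ y) (ρ z) = true := by rw [cnd_iff, h1, hm', hn']
    have h3 : d x z = d x y + d y z := by
      apply le_antisymm (hd.tri x y z)
      have := hρ x z
      rw [h1] at this
      rw [hm, hn]
      exact_mod_cast this
    rw [if_pos h2, if_pos h3]

theorem sA0 : ∀ i : Fin 5, i.castSucc.succ.succAbove (0 : Fin 6) = 0 := by decide

theorem sA5 : ∀ i : Fin 5, i.castSucc.succ.succAbove (5 : Fin 6) = 6 := by decide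

theorem Fl_bd_single {d : V → V → ℕ∞} (hd : IsMet d) {e : Fin 6 → V} {ρ : V → Fin 6}
    (hρ : ∀ x y, (d6 (ρ x) (ρ y) : ℕ∞) ≤ d x y) (hρe : ∀ a, ρ (e a) = a)
    (y : Fin 7 → V) (hy : y ∈ gens d 6 7) :
    Fl e ρ (bd d 5 (Finsupp.single y 1)) = 0 := by
  classical
  rw [bd_single, map_sum]
  simp only [map_smul, Fl_face]
  by_cases hends : y 0 = e 0 ∧ y 6 = e 1
  swap
  · apply Finset.sum_eq_zero
    intro i _
    have : F e ρ (fun j => y (i.castSucc.succ.succAbove j)) = 0 := by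
      unfold F
      rw [if_neg]
      intro h
      apply hends
      constructor
      · have h1 := h.1
        rwa [show (fun j => y (i.castSucc.succ.succAbove j)) (0 : Fin 6)
          = y (i.castSucc.succ.succAbove (0 : Fin 6)) from rfl, sA0 i] at h1
      · have h1 := h.2
        rwa [show (fun j => y (i.castSucc.succ.succAbove j)) (5 : Fin 6)
          = y (i.castSucc.succ.succAbove (5 : Fin 6)) from rfl, sA5 i] at h1
    rw [this]; simp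
  obtain ⟨h0, h6⟩ := hends
  obtain ⟨hne, hlen⟩ := hy
  have hlen' : d (y 0) (y 1) + d (y 1) (y 2) + d (y 2) (y 3) + d (y 3) (y 4) + d (y 4) (y 5)
      + d (y 5) (y 6) = ((7 : ℕ) : ℕ∞) := by
    rw [← hlen]
    unfold len
    rw [Fin.sum_univ_six]
    rfl
  have hfin : ∀ a b : ℕ∞, ∀ n : ℕ, a + b = (n : ℕ∞) → ∃ p q : ℕ, a = p ∧ b = q ∧ p + q = n := by
    intro a b n hab
    have ha : a ≠ ⊤ := by
      rintro rfl; simp at hab
    have hb : b ≠ ⊤ := by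
      rintro rfl; simp at hab
    lift a to ℕ using ha
    lift b to ℕ using hb
    exact ⟨a, b, rfl, rfl, by exact_mod_cast hab⟩
  obtain ⟨s5, m6, hs5, hm6, e6⟩ := hfin _ _ _ hlen'
  obtain ⟨s4, m5, hs4, hm5, e5⟩ := hfin _ _ _ hs5
  obtain ⟨s3, m4, hs3, hm4, e4⟩ := hfin _ _ _ hs4
  obtain ⟨s2, m3, hs2, hm3, e3⟩ := hfin _ _ _ hs3
  obtain ⟨m1, m2, hm1, hm2, e2⟩ := hfin _ _ _ hs2
  have hb0 : ρ (y 0) = 0 := by rw [h0, hρe]
  have hb6 : ρ (y 6) = 1 := by rw [h6, hρe]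
  have k1 : d6 (ρ (y 0)) (ρ (y 1)) ≤ m1 := by have := hρ (y 0) (y 1); rw [hm1] at this; exact_mod_cast this
  have k2 : d6 (ρ (y 1)) (ρ (y 2)) ≤ m2 := by have := hρ (y 1) (y 2); rw [hm2] at this; exact_mod_cast this
  have k3 : d6 (ρ (y 2)) (ρ (y 3)) ≤ m3 := by have := hρ (y 2) (y 3); rw [hm3] at this; exact_mod_cast this
  have k4 : d6 (ρ (y 3)) (ρ (y 4)) ≤ m4 := by have := hρ (y 3) (y 4); rw [hm4] at this; exact_mod_cast this
  have k5 : d6 (ρ (y 4)) (ρ (y 5)) ≤ m5 := by have := hρ (y 4) (y 5); rw [hm5] at this; exact_mod_cast this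
  have k6 : d6 (ρ (y 5)) (ρ (y 6)) ≤ m6 := by have := hρ (y 5) (y 6); rw [hm6] at this; exact_mod_cast this
  -- the five values of the cochain
  have f0 : F e ρ (fun j => y ((0 : Fin 5).castSucc.succ.succAbove j))
      = phi4 (ρ (y 2)) (ρ (y 3)) (ρ (y 4)) (ρ (y 5)) := if_pos ⟨h0, h6⟩
  have f1 : F e ρ (fun j => y ((1 : Fin 5).castSucc.succ.succAbove j))
      = phi4 (ρ (y 1)) (ρ (y 3)) (ρ (y 4)) (ρ (y 5)) := if_pos ⟨h0, h6⟩
  have f2 : F e ρ (fun j => y ((2 : Fin 5).castSucc.succ.succAbove j))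
      = phi4 (ρ (y 1)) (ρ (y 2)) (ρ (y 4)) (ρ (y 5)) := if_pos ⟨h0, h6⟩
  have f3 : F e ρ (fun j => y ((3 : Fin 5).castSucc.succ.succAbove j))
      = phi4 (ρ (y 1)) (ρ (y 2)) (ρ (y 3)) (ρ (y 5)) := if_pos ⟨h0, h6⟩
  have f4 : F e ρ (fun j => y ((4 : Fin 5).castSucc.succ.succAbove j))
      = phi4 (ρ (y 1)) (ρ (y 2)) (ρ (y 3)) (ρ (y 4)) := if_pos ⟨h0, h6⟩
  have t0 := d6_tri (ρ (y 0)) (ρ (y 1)) (ρ (y 2))
  have t1 := d6_tri (ρ (y 1)) (ρ (y 2)) (ρ (y 3))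
  have t2 := d6_tri (ρ (y 2)) (ρ (y 3)) (ρ (y 4))
  have t3 := d6_tri (ρ (y 3)) (ρ (y 4)) (ρ (y 5))
  have t4 := d6_tri (ρ (y 4)) (ρ (y 5)) (ρ (y 6))
  have l0 := phi4_len (ρ (y 2)) (ρ (y 3)) (ρ (y 4)) (ρ (y 5))
  have l1 := phi4_len (ρ (y 1)) (ρ (y 3)) (ρ (y 4)) (ρ (y 5))
  have l2 := phi4_len (ρ (y 1)) (ρ (y 2)) (ρ (y 4)) (ρ (y 5))
  have l3 := phi4_len (ρ (y 1)) (ρ (y 2)) (ρ (y 3)) (ρ (y 5))
  have l4 := phi4_len (ρ (y 1)) (ρ (y 2)) (ρ (y 3)) (ρ (y 4))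
  rw [← hb0, ← hb6] at l0 l1 l2 l3 l4
  rw [Fin.sum_univ_five, f0, f1, f2, f3, f4]
  by_cases hN : 7 ≤ d6 (ρ (y 0)) (ρ (y 1)) + d6 (ρ (y 1)) (ρ (y 2)) + d6 (ρ (y 2)) (ρ (y 3))
      + d6 (ρ (y 3)) (ρ (y 4)) + d6 (ρ (y 4)) (ρ (y 5)) + d6 (ρ (y 5)) (ρ (y 6))
  · obtain ⟨q1, q2, q3, q4, q5, q6⟩ := key_nat m1 m2 m3 m4 m5 m6 _ _ _ _ _ _ k1 k2 k3 k4 k5 k6
      (by omega) hN
    have g0 := term_eq hd hρ (y 0) (y 1) (y 2) (phi4 (ρ (y 2)) (ρ (y 3)) (ρ (y 4)) (ρ (y 5)))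
      m1 m2 hm1 hm2 q1 q2 (fun h => by have := l0 h; omega)
    have g1 := term_eq hd hρ (y 1) (y 2) (y 3) (phi4 (ρ (y 1)) (ρ (y 3)) (ρ (y 4)) (ρ (y 5)))
      m2 m3 hm2 hm3 q2 q3 (fun h => by have := l1 h; omega)
    have g2 := term_eq hd hρ (y 2) (y 3) (y 4) (phi4 (ρ (y 1)) (ρ (y 2)) (ρ (y 4)) (ρ (y 5)))
      m3 m4 hm3 hm4 q3 q4 (fun h => by have := l2 h; omega)
    have g3 := term_eq hd hρ (y 3) (y 4) (y 5) (phi4 (ρ (y 1)) (ρ (y 2)) (ρ (y 3)) (ρ (y 5)))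
      m4 m5 hm4 hm5 q4 q5 (fun h => by have := l3 h; omega)
    have g4 := term_eq hd hρ (y 4) (y 5) (y 6) (phi4 (ρ (y 1)) (ρ (y 2)) (ρ (y 3)) (ρ (y 4)))
      m5 m6 hm5 hm6 q5 q6 (fun h => by have := l4 h; omega)
    have hcyc := cyc_all (ρ (y 1)) (ρ (y 2)) (ρ (y 3)) (ρ (y 4)) (ρ (y 5))
    have nz : ∀ (j : Fin 6) (m : ℕ), d (y j.castSucc) (y j.succ) = m →
        d6 (ρ (y j.castSucc)) (ρ (y j.succ)) = m → ρ (y j.castSucc) ≠ ρ (y j.succ) := by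
      intro j m h1 h2 h3
      have h4 := hd.pos _ _ (hne j)
      rw [h1, ← h2, h3, d6_self] at h4
      simp at h4
    have n1 := nz 0 m1 hm1 q1
    have n2 := nz 1 m2 hm2 q2
    have n3 := nz 2 m3 hm3 q3
    have n4 := nz 3 m4 hm4 q4
    have n5 := nz 4 m5 hm5 q5
    have n6 := nz 5 m6 hm6 q6
    change ρ (y 0) ≠ ρ (y 1) at n1
    change ρ (y 1) ≠ ρ (y 2) at n2
    change ρ (y 2) ≠ ρ (y 3) at n3
    change ρ (y 3) ≠ ρ (y 4) at n4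
    change ρ (y 4) ≠ ρ (y 5) at n5
    change ρ (y 5) ≠ ρ (y 6) at n6
    unfold cyc at hcyc
    rw [← hb0, ← hb6] at hcyc
    simp only [Bool.or_eq_true, beq_iff_eq, n1, n2, n3, n4, n5, n6, false_or] at hcyc
    rw [← g0, ← g1, ← g2, ← g3, ← g4] at hcyc
    have e0 : (-1 : ℤ) ^ (((0 : Fin 5) : ℕ) + 1) = -1 := by norm_num
    have e1 : (-1 : ℤ) ^ (((1 : Fin 5) : ℕ) + 1) = 1 := by norm_num
    have e2 : (-1 : ℤ) ^ (((2 : Fin 5) : ℕ) + 1) = -1 := by norm_num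
    have e3 : (-1 : ℤ) ^ (((3 : Fin 5) : ℕ) + 1) = 1 := by norm_num
    have e4 : (-1 : ℤ) ^ (((4 : Fin 5) : ℕ) + 1) = -1 := by norm_num
    rw [e0, e1, e2, e3, e4]
    refine Eq.trans ?_ hcyc
    simp only [smul_eq_mul]
    change (-1 : ℤ) * (if d (y 0) (y 2) = d (y 0) (y 1) + d (y 1) (y 2) then _ else 0)
      + 1 * (if d (y 1) (y 3) = d (y 1) (y 2) + d (y 2) (y 3) then _ else 0)
      + (-1) * (if d (y 2) (y 4) = d (y 2) (y 3) + d (y 3) (y 4) then _ else 0)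
      + 1 * (if d (y 3) (y 5) = d (y 3) (y 4) + d (y 4) (y 5) then _ else 0)
      + (-1) * (if d (y 4) (y 6) = d (y 4) (y 5) + d (y 5) (y 6) then _ else 0) = _
    ring
  · have z0 : phi4 (ρ (y 2)) (ρ (y 3)) (ρ (y 4)) (ρ (y 5)) = 0 := by
      by_contra h; have := l0 h; omega
    have z1 : phi4 (ρ (y 1)) (ρ (y 3)) (ρ (y 4)) (ρ (y 5)) = 0 := by
      by_contra h; have := l1 h; omega
    have z2 : phi4 (ρ (y 1)) (ρ (y 2)) (ρ (y 4)) (ρ (y 5)) = 0 := by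
      by_contra h; have := l2 h; omega
    have z3 : phi4 (ρ (y 1)) (ρ (y 2)) (ρ (y 3)) (ρ (y 5)) = 0 := by
      by_contra h; have := l3 h; omega
    have z4 : phi4 (ρ (y 1)) (ρ (y 2)) (ρ (y 3)) (ρ (y 4)) = 0 := by
      by_contra h; have := l4 h; omega
    rw [z0, z1, z2, z3, z4]
    simp

end Pool.Agent.MP65cbfa
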