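import Pool.Agent.MP65cbfa.Hex

/-!
# An explicit cycle in the hexagon, transported to any isometric copy of the hexagon
-/

set_option autoImplicit false

namespace Pool.Agent.MP65cbfa

open Finsupp

variable {V : Type}

/-- The generator given by a hexagon tuple under `e`. -/
noncomputable def sg (e : Fin 6 → V) {k : ℕ} (c : Fin k → Fin 6) : (Fin k → V) →₀ ℤ :=
  Finsupp.single (fun j => e (c j)) 1

theorem bd_single (d : V → V → ℕ∞) {k : ℕ} (x : Fin (k + 2) → V) :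
    bd d k (Finsupp.single x 1) = ∑ i : Fin k, (-1 : ℤ) ^ ((i : ℕ) + 1) • face d i x := by
  simp [bd]

theorem cnd_iff (a b c : Fin 6) : cnd a b c = true ↔ d6 a c = d6 a b + d6 b c := by
  simp [cnd]

/-- An isometric copy of the hexagon. -/
def IsHex (d : V → V → ℕ∞) (e : Fin 6 → V) : Prop := ∀ a b, d (e a) (e b) = (d6 a b : ℕ)

theorem face_pos {d : V → V → ℕ∞} {e : Fin 6 → V} (he : IsHex d e) (b : Fin 6 → Fin 6)
    (i : Fin 4) (c : Fin 5 → Fin 6)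
    (h : cnd (b i.castSucc.castSucc) (b i.castSucc.succ) (b i.succ.succ) = true)
    (hc : (fun j => b (i.castSucc.succ.succAbove j)) = c) :
    face d i (fun j => e (b j)) = sg e c := by
  subst hc
  unfold face sg
  rw [if_pos]
  rw [he, he, he]
  rw [cnd_iff] at h
  exact_mod_cast h

theorem face_neg {d : V → V → ℕ∞} {e : Fin 6 → V} (he : IsHex d e) (b : Fin 6 → Fin 6)
    (i : Fin 4)
    (h : cnd (b i.castSucc.castSucc) (b i.castSucc.succ) (b i.succ.succ) = false) :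
    face d i (fun j => e (b j)) = 0 := by
  unfold face
  rw [if_neg]
  rw [he, he, he]
  intro h'
  have h2 : cnd (b i.castSucc.castSucc) (b i.castSucc.succ) (b i.succ.succ) = true := by
    rw [cnd_iff]
    exact_mod_cast h'
  rw [h] at h2
  cases h2

theorem bd_t0 {d : V → V → ℕ∞} {e : Fin 6 → V} (he : IsHex d e) :
    bd d 4 (sg e ![0, 1, 0, 4, 0, 1]) = 0 + sg e ![0, 1, 4, 0, 1] + sg e ![0, 1, 0, 4, 1] := by
  rw [sg, bd_single, Fin.sum_univ_four,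
    face_neg he ![0, 1, 0, 4, 0, 1] 0 (by decide),
    face_pos he ![0, 1, 0, 4, 0, 1] 1 ![0, 1, 4, 0, 1] (by decide) (by decide),
    face_neg he ![0, 1, 0, 4, 0, 1] 2 (by decide),
    face_pos he ![0, 1, 0, 4, 0, 1] 3 ![0, 1, 0, 4, 1] (by decide) (by decide)]
  norm_num
  try abel

theorem bd_t1 {d : V → V → ℕ∞} {e : Fin 6 → V} (he : IsHex d e) :
    bd d 4 (sg e ![0, 1, 0, 4, 2, 1]) = 0 + sg e ![0, 1, 4, 2, 1] + sg e ![0, 1, 0, 4, 1] := by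
  rw [sg, bd_single, Fin.sum_univ_four,
    face_neg he ![0, 1, 0, 4, 2, 1] 0 (by decide),
    face_pos he ![0, 1, 0, 4, 2, 1] 1 ![0, 1, 4, 2, 1] (by decide) (by decide),
    face_neg he ![0, 1, 0, 4, 2, 1] 2 (by decide),
    face_pos he ![0, 1, 0, 4, 2, 1] 3 ![0, 1, 0, 4, 1] (by decide) (by decide)]
  norm_num
  try abel

theorem bd_t2 {d : V → V → ℕ∞} {e : Fin 6 → V} (he : IsHex d e) :
    bd d 4 (sg e ![0, 1, 3, 1, 0, 1]) = 0 - sg e ![0, 3, 1, 0, 1] - sg e ![0, 1, 3, 0, 1] := by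
  rw [sg, bd_single, Fin.sum_univ_four,
    face_pos he ![0, 1, 3, 1, 0, 1] 0 ![0, 3, 1, 0, 1] (by decide) (by decide),
    face_neg he ![0, 1, 3, 1, 0, 1] 1 (by decide),
    face_pos he ![0, 1, 3, 1, 0, 1] 2 ![0, 1, 3, 0, 1] (by decide) (by decide),
    face_neg he ![0, 1, 3, 1, 0, 1] 3 (by decide)]
  norm_num
  try abel

theorem bd_t3 {d : V → V → ℕ∞} {e : Fin 6 → V} (he : IsHex d e) :
    bd d 4 (sg e ![0, 1, 3, 4, 0, 1]) = 0 - sg e ![0, 3, 4, 0, 1] + sg e ![0, 1, 4, 0, 1] - sg e ![0, 1, 3, 0, 1] + sg e ![0, 1, 3, 4, 1] := by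
  rw [sg, bd_single, Fin.sum_univ_four,
    face_pos he ![0, 1, 3, 4, 0, 1] 0 ![0, 3, 4, 0, 1] (by decide) (by decide),
    face_pos he ![0, 1, 3, 4, 0, 1] 1 ![0, 1, 4, 0, 1] (by decide) (by decide),
    face_pos he ![0, 1, 3, 4, 0, 1] 2 ![0, 1, 3, 0, 1] (by decide) (by decide),
    face_pos he ![0, 1, 3, 4, 0, 1] 3 ![0, 1, 3, 4, 1] (by decide) (by decide)]
  norm_num
  try abel

theorem bd_t4 {d : V → V → ℕ∞} {e : Fin 6 → V} (he : IsHex d e) :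
    bd d 4 (sg e ![0, 1, 3, 4, 2, 1]) = 0 - sg e ![0, 3, 4, 2, 1] + sg e ![0, 1, 4, 2, 1] + sg e ![0, 1, 3, 4, 1] := by
  rw [sg, bd_single, Fin.sum_univ_four,
    face_pos he ![0, 1, 3, 4, 2, 1] 0 ![0, 3, 4, 2, 1] (by decide) (by decide),
    face_pos he ![0, 1, 3, 4, 2, 1] 1 ![0, 1, 4, 2, 1] (by decide) (by decide),
    face_neg he ![0, 1, 3, 4, 2, 1] 2 (by decide),
    face_pos he ![0, 1, 3, 4, 2, 1] 3 ![0, 1, 3, 4, 1] (by decide) (by decide)]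
  norm_num
  try abel

theorem bd_t5 {d : V → V → ℕ∞} {e : Fin 6 → V} (he : IsHex d e) :
    bd d 4 (sg e ![0, 5, 3, 1, 0, 1]) = 0 - sg e ![0, 3, 1, 0, 1] - sg e ![0, 5, 3, 0, 1] := by
  rw [sg, bd_single, Fin.sum_univ_four,
    face_pos he ![0, 5, 3, 1, 0, 1] 0 ![0, 3, 1, 0, 1] (by decide) (by decide),
    face_neg he ![0, 5, 3, 1, 0, 1] 1 (by decide),
    face_pos he ![0, 5, 3, 1, 0, 1] 2 ![0, 5, 3, 0, 1] (by decide) (by decide),
    face_neg he ![0, 5, 3, 1, 0, 1] 3 (by decide)]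
  norm_num
  try abel

theorem bd_t6 {d : V → V → ℕ∞} {e : Fin 6 → V} (he : IsHex d e) :
    bd d 4 (sg e ![0, 5, 3, 4, 0, 1]) = 0 - sg e ![0, 3, 4, 0, 1] - sg e ![0, 5, 3, 0, 1] + sg e ![0, 5, 3, 4, 1] := by
  rw [sg, bd_single, Fin.sum_univ_four,
    face_pos he ![0, 5, 3, 4, 0, 1] 0 ![0, 3, 4, 0, 1] (by decide) (by decide),
    face_neg he ![0, 5, 3, 4, 0, 1] 1 (by decide),
    face_pos he ![0, 5, 3, 4, 0, 1] 2 ![0, 5, 3, 0, 1] (by decide) (by decide),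
    face_pos he ![0, 5, 3, 4, 0, 1] 3 ![0, 5, 3, 4, 1] (by decide) (by decide)]
  norm_num
  try abel

theorem bd_t7 {d : V → V → ℕ∞} {e : Fin 6 → V} (he : IsHex d e) :
    bd d 4 (sg e ![0, 5, 3, 4, 2, 1]) = 0 - sg e ![0, 3, 4, 2, 1] + sg e ![0, 5, 3, 4, 1] := by
  rw [sg, bd_single, Fin.sum_univ_four,
    face_pos he ![0, 5, 3, 4, 2, 1] 0 ![0, 3, 4, 2, 1] (by decide) (by decide),
    face_neg he ![0, 5, 3, 4, 2, 1] 1 (by decide),
    face_neg he ![0, 5, 3, 4, 2, 1] 2 (by decide),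
    face_pos he ![0, 5, 3, 4, 2, 1] 3 ![0, 5, 3, 4, 1] (by decide) (by decide)]
  norm_num
  try abel

/-- The eight-term cycle. -/
noncomputable def zc (e : Fin 6 → V) : (Fin 6 → V) →₀ ℤ :=
  - sg e ![0, 1, 0, 4, 0, 1]
  + sg e ![0, 1, 0, 4, 2, 1]
  - sg e ![0, 1, 3, 1, 0, 1]
  + sg e ![0, 1, 3, 4, 0, 1]
  - sg e ![0, 1, 3, 4, 2, 1]
  + sg e ![0, 5, 3, 1, 0, 1]
  - sg e ![0, 5, 3, 4, 0, 1]
  + sg e ![0, 5, 3, 4, 2, 1]

theorem bd_zc {d : V → V → ℕ∞} {e : Fin 6 → V} (he : IsHex d e) : bd d 4 (zc e) = 0 := by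
  unfold zc
  simp only [map_add, map_sub, map_neg]
  rw [bd_t0 he, bd_t1 he, bd_t2 he, bd_t3 he, bd_t4 he, bd_t5 he, bd_t6 he, bd_t7 he]
  abel

end Pool.Agent.MP65cbfa
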