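import Mathlib

/-!
# Hyperplane arrangements, tope graphs and magnitude homology: definitions
-/

set_option autoImplicit false

namespace Pool.Agent.MP65cbfa

/-! ## Magnitude homology -/

section Magnitude

variable {V : Type} (d : V → V → ℕ∞)

/-- The length `∑ d(x_{i-1}, x_i)` of a tuple `(x_0, …, x_k)`. -/
def len {k : ℕ} (x : Fin (k + 1) → V) : ℕ∞ := ∑ i : Fin k, d (x i.castSucc) (x i.succ)

/-- The generators of `MC_{k,l}`: the tuples `(x_0, …, x_k)` of length `l` with
`x_{i-1} ≠ x_i` for all `i`. -/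
def gens (k l : ℕ) : Set (Fin (k + 1) → V) :=
  {x | (∀ i : Fin k, x i.castSucc ≠ x i.succ) ∧ len d x = l}

/-- `MC_{k,l}`: the free abelian group on `gens d k l`, inside the free abelian group on all
tuples `(x_0, …, x_k)`. -/
noncomputable def MC (k l : ℕ) : Submodule ℤ ((Fin (k + 1) → V) →₀ ℤ) :=
  Finsupp.supported ℤ ℤ (gens d k l)

open Classical in
/-- For a tuple `x = (x_0, …, x_{k+1})` and `i < k`, the face `∂_{i+1} x`: delete the interior
entry `x_{i+1}` if `d(x_i, x_{i+2}) = d(x_i, x_{i+1}) + d(x_{i+1}, x_{i+2})`; else `0`. -/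
noncomputable def face {k : ℕ} (i : Fin k) (x : Fin (k + 2) → V) : (Fin (k + 1) → V) →₀ ℤ :=
  if d (x i.castSucc.castSucc) (x i.succ.succ) =
      d (x i.castSucc.castSucc) (x i.castSucc.succ) + d (x i.castSucc.succ) (x i.succ.succ)
  then Finsupp.single (fun j => x (i.castSucc.succ.succAbove j)) 1
  else 0

/-- The differential `∂ = ∑_{i=1}^{k} (-1)^i ∂_i` on tuples `(x_0, …, x_{k+1})`. -/
noncomputable def bd (k : ℕ) :
    ((Fin (k + 2) → V) →₀ ℤ) →ₗ[ℤ] ((Fin (k + 1) → V) →₀ ℤ) :=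
  Finsupp.linearCombination ℤ fun x => ∑ i : Fin k, (-1 : ℤ) ^ ((i : ℕ) + 1) • face d i x

/-- The cycles in `MC_{k,l}`. -/
noncomputable def cycles : (k l : ℕ) → Submodule ℤ ((Fin (k + 1) → V) →₀ ℤ)
  | 0, l => MC d 0 l
  | k + 1, l => MC d (k + 1) l ⊓ LinearMap.ker (bd d k)

/-- The boundaries in `MC_{k,l}`. -/
noncomputable def boundaries (k l : ℕ) : Submodule ℤ ((Fin (k + 1) → V) →₀ ℤ) :=
  (MC d (k + 1) l).map (bd d k)

/-- Magnitude homology `MH_{k,l}`: cycles modulo boundaries. -/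
abbrev MH (k l : ℕ) : Type := cycles d k l ⧸ (boundaries d k l).submoduleOf (cycles d k l)

/-- The magnitude Betti number: the rank of the abelian group `MH_{k,l}`. -/
noncomputable def betti (k l : ℕ) : ℕ := Module.finrank ℤ (MH d k l)

end Magnitude

/-! ## Arrangements -/

/-- An arrangement in `ℝ^d`: a finite set of linear hyperplanes. -/
structure Arrangement (d : ℕ) where
  /-- the hyperplanes -/
  hyps : Finset (Submodule ℝ (Fin d → ℝ))
  isHyperplane : ∀ H ∈ hyps, Module.finrank ℝ H + 1 = d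

namespace Arrangement

variable {d : ℕ} (A : Arrangement d)

/-- The number `n` of hyperplanes. -/
def n : ℕ := A.hyps.card

/-- The intersection of all hyperplanes. -/
def center : Submodule ℝ (Fin d → ℝ) := sInf A.hyps

/-- The rank `r = d - dim (⋂ H)`. -/
noncomputable def rank : ℕ := d - Module.finrank ℝ A.center

/-- The complement of the union of the hyperplanes. -/
def compl : Set (Fin d → ℝ) := {x | ∀ H ∈ A.hyps, x ∉ H}

/-- The chambers: the connected components of the complement. -/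
def chambers : Set (Set (Fin d → ℝ)) :=
  {C | ∃ x ∈ A.compl, C = connectedComponentIn A.compl x}

/-- `H` separates `C` and `D`: they lie strictly on different sides of `H`. -/
def Separates (H : Submodule ℝ (Fin d → ℝ)) (C D : Set (Fin d → ℝ)) : Prop :=
  ∃ f : (Fin d → ℝ) →ₗ[ℝ] ℝ, LinearMap.ker f = H ∧ (∀ x ∈ C, 0 < f x) ∧ (∀ x ∈ D, f x < 0)

theorem Separates.symm {H : Submodule ℝ (Fin d → ℝ)} {C D : Set (Fin d → ℝ)}
    (h : Separates H C D) : Separates H D C := by
  obtain ⟨f, hf, h1, h2⟩ := h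
  refine ⟨-f, ?_, fun x hx => ?_, fun x hx => ?_⟩
  · rw [← hf]; ext x; simp
  · have := h2 x hx; simpa using this
  · have := h1 x hx; simpa using this

/-- Exactly one hyperplane of `A` separates `C` and `D`. -/
def OneSeparates (C D : A.chambers) : Prop :=
  ∃! H, H ∈ A.hyps ∧ Separates H (C : Set (Fin d → ℝ)) D

theorem OneSeparates.symm (C D : A.chambers) (h : A.OneSeparates C D) :
    A.OneSeparates D C := by
  obtain ⟨H, ⟨hH, hs⟩, huniq⟩ := h
  exact ⟨H, ⟨hH, hs.symm⟩, fun H' h' => huniq H' ⟨h'.1, h'.2.symm⟩⟩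

theorem OneSeparates.irrefl (C : A.chambers) : ¬ A.OneSeparates C C := by
  obtain ⟨C, x, hx, rfl⟩ := C
  rintro ⟨H, ⟨-, f, -, h1, h2⟩, -⟩
  have hmem := mem_connectedComponentIn hx
  exact lt_asymm (h1 x hmem) (h2 x hmem)

/-- The tope graph: chambers are adjacent when exactly one hyperplane separates them. -/
def topeGraph : SimpleGraph A.chambers where
  Adj := A.OneSeparates
  symm := ⟨OneSeparates.symm A⟩
  loopless := ⟨OneSeparates.irrefl A⟩

/-- The magnitude Betti number `β_{k,l}(A)` of the tope graph with its path metric. -/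
noncomputable def beta (k l : ℕ) : ℕ := betti A.topeGraph.edist k l

/-- `A` is a direct sum of two nonempty arrangements: `ℝ^d = V₁ ⊕ V₂`, every hyperplane `H` of
`A` is of the form `H₁ ⊕ V₂` (equivalently `V₂ ≤ H`) or of the form `V₁ ⊕ H₂` (equivalently
`V₁ ≤ H`), and both kinds occur. -/
def Decomposable : Prop :=
  ∃ V₁ V₂ : Submodule ℝ (Fin d → ℝ), IsCompl V₁ V₂ ∧
    (∀ H ∈ A.hyps, V₂ ≤ H ∨ V₁ ≤ H) ∧ (∃ H ∈ A.hyps, V₂ ≤ H) ∧ (∃ H ∈ A.hyps, V₁ ≤ H)

/-- `A` is indecomposable. -/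
def Indecomposable : Prop := ¬ A.Decomposable

end Arrangement

end Pool.Agent.MP65cbfa
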