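import Pool.Agent.MP65cbfa.Rank

/-!
# Chambers of an arrangement given by linear functionals, via sign vectors
-/

set_option autoImplicit false

namespace Pool.Agent.MP65cbfa

open Set

section General

variable {d n : ℕ} (f : Fin n → ((Fin d → ℝ) →ₗ[ℝ] ℝ))

/-- The set of points with a given sign vector. -/
def cell (s : Fin n → Bool) : Set (Fin d → ℝ) :=
  {x | ∀ i, if s i = true then 0 < f i x else f i x < 0}

open Classical in
/-- The arrangement of the kernels of nonzero functionals. -/
noncomputable def arr (hf : ∀ i, f i ≠ 0) : Arrangement d where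
  hyps := Finset.univ.image fun i => LinearMap.ker (f i)
  isHyperplane := by
    intro H hH
    simp only [Finset.mem_image, Finset.mem_univ, true_and] at hH
    obtain ⟨i, rfl⟩ := hH
    have := Module.Dual.finrank_ker_add_one_of_ne_zero (hf i)
    simpa using this

variable {f}

theorem mem_hyps (hf : ∀ i, f i ≠ 0) (H : Submodule ℝ (Fin d → ℝ)) :
    H ∈ (arr f hf).hyps ↔ ∃ i, LinearMap.ker (f i) = H := by
  simp [arr]

theorem mem_compl (hf : ∀ i, f i ≠ 0) (x : Fin d → ℝ) :
    x ∈ (arr f hf).compl ↔ ∀ i, f i x ≠ 0 := by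
  unfold Arrangement.compl
  simp only [mem_hyps, mem_ofPred_eq]
  constructor
  · intro h i hi
    exact h _ ⟨i, rfl⟩ hi
  · rintro h _ ⟨i, rfl⟩ hi
    exact h i hi

theorem cell_convex (s : Fin n → Bool) : Convex ℝ (cell f s) := by
  have : cell f s = ⋂ i, {x | if s i = true then 0 < f i x else f i x < 0} := by
    ext x; simp [cell]
  rw [this]
  apply convex_iInter
  intro i
  cases h : s i
  · simp only [Bool.false_eq_true, if_false]
    exact convex_halfSpace_lt (f i).isLinear 0
  · simp only [if_true]
    exact convex_halfSpace_gt (f i).isLinear 0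

theorem cell_subset_compl (hf : ∀ i, f i ≠ 0) (s : Fin n → Bool) :
    cell f s ⊆ (arr f hf).compl := by
  intro x hx
  rw [mem_compl]
  intro i hi
  have := hx i
  rw [hi] at this
  split_ifs at this <;> exact lt_irrefl _ this

open Classical in
/-- The sign vector of a point. -/
noncomputable def sgv (f : Fin n → ((Fin d → ℝ) →ₗ[ℝ] ℝ)) (x : Fin d → ℝ) : Fin n → Bool :=
  fun i => decide (0 < f i x)

theorem mem_cell_sgv (hf : ∀ i, f i ≠ 0) {x : Fin d → ℝ} (hx : x ∈ (arr f hf).compl) :
    x ∈ cell f (sgv f x) := by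
  rw [mem_compl] at hx
  intro i
  unfold sgv
  by_cases h : 0 < f i x
  · simp [h]
  · simp only [h, decide_false, Bool.false_eq_true, if_false]
    exact lt_of_le_of_ne (not_lt.1 h) (hx i)

theorem cell_eq_of_mem {s : Fin n → Bool} {x : Fin d → ℝ} (hx : x ∈ cell f s) : sgv f x = s := by
  funext i
  have := hx i
  unfold sgv
  cases h : s i
  · rw [h] at this
    simp only [Bool.false_eq_true, if_false] at this
    simp [this.le]
  · rw [h] at this
    simp only [if_true] at this
    simp [this]

theorem component_eq_cell (hf : ∀ i, f i ≠ 0) {x : Fin d → ℝ} (hx : x ∈ (arr f hf).compl) :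
    connectedComponentIn (arr f hf).compl x = cell f (sgv f x) := by
  apply Subset.antisymm
  · intro y hy i
    have hpre : IsPreconnected (connectedComponentIn (arr f hf).compl x) :=
      isPreconnected_connectedComponentIn
    have hsub := connectedComponentIn_subset (arr f hf).compl x
    have hcont : Continuous (f i) := LinearMap.continuous_of_finiteDimensional _
    have hU : IsOpen {z | 0 < f i z} := isOpen_lt continuous_const hcont
    have hV : IsOpen {z | f i z < 0} := isOpen_lt hcont continuous_const
    have hdisj : Disjoint {z | 0 < f i z} {z | f i z < 0} := by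
      rw [Set.disjoint_left]
      intro z h1 h2
      have h1' : 0 < f i z := h1
      have h2' : f i z < 0 := h2
      exact lt_asymm h1' h2'
    have hcov : connectedComponentIn (arr f hf).compl x ⊆ {z | 0 < f i z} ∪ {z | f i z < 0} := by
      intro z hz
      have := (mem_compl hf z).1 (hsub hz) i
      rcases lt_or_gt_of_ne this with h | h
      · exact Or.inr h
      · exact Or.inl h
    have hxx := mem_connectedComponentIn hx
    unfold sgv
    by_cases h : 0 < f i x
    · simp only [h, decide_true, if_true]
      have := hpre.subset_left_of_subset_union hU hV hdisj hcov ⟨x, hxx, h⟩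
      exact this hy
    · simp only [h, decide_false, Bool.false_eq_true, if_false]
      have hx' : f i x < 0 := lt_of_le_of_ne (not_lt.1 h) ((mem_compl hf x).1 hx i)
      have := hpre.subset_right_of_subset_union hU hV hdisj hcov ⟨x, hxx, hx'⟩
      exact this hy
  · exact (cell_convex _).isPreconnected.subset_connectedComponentIn (mem_cell_sgv hf hx)
      (cell_subset_compl hf _)

theorem mem_chambers (hf : ∀ i, f i ≠ 0) (C : Set (Fin d → ℝ)) :
    C ∈ (arr f hf).chambers ↔ ∃ s, (cell f s).Nonempty ∧ C = cell f s := by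
  constructor
  · rintro ⟨x, hx, rfl⟩
    exact ⟨sgv f x, ⟨x, mem_cell_sgv hf hx⟩, component_eq_cell hf hx⟩
  · rintro ⟨s, ⟨x, hx⟩, rfl⟩
    have hx' := cell_subset_compl hf s hx
    refine ⟨x, hx', ?_⟩
    rw [component_eq_cell hf hx', cell_eq_of_mem hx]

theorem separates_cell (i : Fin n) {s t : Fin n → Bool} (hs : (cell f s).Nonempty)
    (ht : (cell f t).Nonempty) :
    Arrangement.Separates (LinearMap.ker (f i)) (cell f s) (cell f t) ↔ s i ≠ t i := by
  constructor
  · rintro ⟨g, hg, h1, h2⟩ hst
    obtain ⟨x, hx⟩ := hs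
    obtain ⟨y, hy⟩ := ht
    have gx := h1 x hx
    have gy := h2 y hy
    have hz : g (g x • y - g y • x) = 0 := by
      simp only [map_sub, map_smul, smul_eq_mul]; ring
    have hz' : g x • y - g y • x ∈ LinearMap.ker (f i) := by
      rw [← hg]; exact hz
    rw [LinearMap.mem_ker] at hz'
    simp only [map_sub, map_smul, smul_eq_mul] at hz'
    have fx := hx i
    have fy := hy i
    rw [← hst] at fy
    cases h : s i
    · rw [h] at fx fy
      simp only [Bool.false_eq_true, if_false] at fx fy
      nlinarith [mul_pos gx (neg_pos.2 fy), mul_pos (neg_pos.2 gy) (neg_pos.2 fx)]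
    · rw [h] at fx fy
      simp only [if_true] at fx fy
      nlinarith [mul_pos gx fy, mul_pos (neg_pos.2 gy) fx]
  · intro hst
    cases h : s i
    · have ht' : t i = true := by
        cases h' : t i
        · exact absurd (h.trans h'.symm) hst
        · rfl
      refine ⟨-f i, ?_, fun x hx => ?_, fun x hx => ?_⟩
      · ext x; simp
      · have := hx i
        rw [h] at this
        simpa using this
      · have := hx i
        rw [ht'] at this
        simpa using this
    · have ht' : t i = false := by
        cases h' : t i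
        · rfl
        · exact absurd (h.trans h'.symm) hst
      refine ⟨f i, rfl, fun x hx => ?_, fun x hx => ?_⟩
      · have := hx i
        rw [h] at this
        simpa using this
      · have := hx i
        rw [ht'] at this
        simpa using this

/-- The chamber with a given sign vector. -/
def chm (hf : ∀ i, f i ≠ 0) (s : Fin n → Bool) (hs : (cell f s).Nonempty) :
    (arr f hf).chambers := ⟨cell f s, (mem_chambers hf _).2 ⟨s, hs, rfl⟩⟩

/-- The sign vector of a chamber. -/
noncomputable def code (hf : ∀ i, f i ≠ 0) (C : (arr f hf).chambers) : Fin n → Bool :=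
  ((mem_chambers hf _).1 C.2).choose

theorem code_nonempty (hf : ∀ i, f i ≠ 0) (C : (arr f hf).chambers) :
    (cell f (code hf C)).Nonempty := ((mem_chambers hf _).1 C.2).choose_spec.1

theorem eq_cell_code (hf : ∀ i, f i ≠ 0) (C : (arr f hf).chambers) :
    (C : Set (Fin d → ℝ)) = cell f (code hf C) := ((mem_chambers hf _).1 C.2).choose_spec.2

theorem cell_inj {s t : Fin n → Bool} (hs : (cell f s).Nonempty) (h : cell f s = cell f t) :
    s = t := by
  obtain ⟨x, hx⟩ := hs
  have hx' := hx
  rw [h] at hx'
  rw [← cell_eq_of_mem hx, ← cell_eq_of_mem hx']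

theorem code_chm (hf : ∀ i, f i ≠ 0) (s : Fin n → Bool) (hs : (cell f s).Nonempty) :
    code hf (chm hf s hs) = s :=
  cell_inj (code_nonempty hf _) (eq_cell_code hf (chm hf s hs)).symm

theorem code_inj (hf : ∀ i, f i ≠ 0) : Function.Injective (code hf) := by
  intro C D h
  apply Subtype.ext
  rw [eq_cell_code hf C, eq_cell_code hf D, h]

theorem adj_iff (hf : ∀ i, f i ≠ 0) (hinj : Function.Injective fun i => LinearMap.ker (f i))
    (C D : (arr f hf).chambers) :
    (arr f hf).topeGraph.Adj C D ↔ ∃! i, code hf C i ≠ code hf D i := by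
  change (∃! H, H ∈ (arr f hf).hyps ∧
    Arrangement.Separates H (C : Set (Fin d → ℝ)) D) ↔ _
  rw [eq_cell_code hf C, eq_cell_code hf D]
  constructor
  · rintro ⟨H, ⟨hH, hsep⟩, huniq⟩
    obtain ⟨i, rfl⟩ := (mem_hyps hf H).1 hH
    refine ⟨i, (separates_cell i (code_nonempty hf C) (code_nonempty hf D)).1 hsep, ?_⟩
    intro j hj
    exact hinj (huniq _ ⟨(mem_hyps hf _).2 ⟨j, rfl⟩,
      (separates_cell j (code_nonempty hf C) (code_nonempty hf D)).2 hj⟩)
  · rintro ⟨i, hi, huniq⟩
    refine ⟨LinearMap.ker (f i), ⟨(mem_hyps hf _).2 ⟨i, rfl⟩,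
      (separates_cell i (code_nonempty hf C) (code_nonempty hf D)).2 hi⟩, ?_⟩
    rintro H ⟨hH, hsep⟩
    obtain ⟨j, rfl⟩ := (mem_hyps hf H).1 hH
    have := huniq j ((separates_cell j (code_nonempty hf C) (code_nonempty hf D)).1 hsep)
    rw [this]

end General

/-- A map which sends edges to pairs at distance at most one does not increase distances. -/
theorem lip_of_adj {V : Type} {G : SimpleGraph V} {ρ : V → Fin 6}
    (h : ∀ x y, G.Adj x y → d6 (ρ x) (ρ y) ≤ 1) (x y : V) :
    (d6 (ρ x) (ρ y) : ℕ∞) ≤ G.edist x y := by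
  apply le_iInf
  intro w
  have : d6 (ρ x) (ρ y) ≤ w.length := by
    induction w with
    | nil => rw [d6_self]; exact Nat.zero_le _
    | @cons a b c hab p ih =>
      have h1 := h _ _ hab
      have h2 := d6_tri (ρ a) (ρ b) (ρ c)
      rw [SimpleGraph.Walk.length_cons]
      omega
  exact_mod_cast this

theorem isMet_edist {V : Type} (G : SimpleGraph V) : IsMet G.edist where
  tri _ _ _ := SimpleGraph.edist_triangle
  pos x y h := by
    rw [Order.one_le_iff_ne_zero]
    exact fun h' => h (SimpleGraph.edist_eq_zero_iff.1 h')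

theorem d6_add : ∀ a k : Fin 6, d6 a (a + k) = min k.val ((6 - k.val) % 6) := by decide

theorem edist_hex_le {V : Type} {G : SimpleGraph V} {s : Fin 6 → V}
    (h : ∀ a, G.Adj (s a) (s (a + 1))) (a b : Fin 6) : G.edist (s a) (s b) ≤ d6 a b := by
  have h1 : ∀ a, G.edist (s a) (s (a + 1)) ≤ 1 := fun a =>
    (SimpleGraph.edist_eq_one_iff_adj.2 (h a)).le
  have h2 : ∀ a, G.edist (s a) (s (a + 2)) ≤ 2 := by
    intro a
    refine (SimpleGraph.edist_triangle (v := s (a + 1))).trans ?_
    have e : a + 2 = (a + 1) + 1 := by revert a; decide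
    rw [e]
    exact (add_le_add (h1 a) (h1 (a + 1))).trans (by norm_num)
  have h3 : ∀ a, G.edist (s a) (s (a + 3)) ≤ 3 := by
    intro a
    refine (SimpleGraph.edist_triangle (v := s (a + 1))).trans ?_
    have e : a + 3 = (a + 1) + 2 := by revert a; decide
    rw [e]
    exact (add_le_add (h1 a) (h2 (a + 1))).trans (by norm_num)
  have h4 : ∀ a, G.edist (s a) (s (a + 4)) ≤ 2 := by
    intro a
    rw [SimpleGraph.edist_comm]
    have e : a = (a + 4) + 2 := by revert a; decide
    conv_lhs => rw [e]
    have e' : a + 4 + 2 + 4 = a + 4 := by revert a; decide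
    rw [e']
    exact h2 (a + 4)
  have h5 : ∀ a, G.edist (s a) (s (a + 5)) ≤ 1 := by
    intro a
    rw [SimpleGraph.edist_comm]
    have e : a = (a + 5) + 1 := by revert a; decide
    conv_lhs => rw [e]
    have e' : a + 5 + 1 + 5 = a + 5 := by revert a; decide
    rw [e']
    exact h1 (a + 5)
  obtain ⟨k, rfl⟩ : ∃ k, b = a + k := ⟨b - a, by revert a b; decide⟩
  rw [d6_add]
  fin_cases k
  · simp
  · exact h1 a
  · exact h2 a
  · exact h3 a
  · exact h4 a
  · exact h5 a

end Pool.Agent.MP65cbfa
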