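import Pool.Agent.MP65cbfa.Defs

/-!
# Computations in the hexagon
-/

set_option autoImplicit false

namespace Pool.Agent.MP65cbfa

/-- distance in the hexagon -/
def d6 (a b : Fin 6) : ℕ := min ((b.val + 6 - a.val) % 6) ((a.val + 6 - b.val) % 6)

/-- the cochain supported on four tuples `(0, 1, {2,3}, 4, {5,0}, 1)` -/
def phi4 (b1 b2 b3 b4 : Fin 6) : ℤ :=
  if b1 = 1 then if b3 = 4 then if (b2 = 2 ∨ b2 = 3) then if (b4 = 5 ∨ b4 = 0) then 1 else 0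
    else 0 else 0 else 0

def cnd (a b c : Fin 6) : Bool := d6 a c == d6 a b + d6 b c

def cyc (b1 b2 b3 b4 b5 : Fin 6) : Bool :=
  (0 == b1) || (b1 == b2) || (b2 == b3) || (b3 == b4) || (b4 == b5) || (b5 == 1) ||
  (- (if cnd 0 b1 b2 then phi4 b2 b3 b4 b5 else 0)
   + (if cnd b1 b2 b3 then phi4 b1 b3 b4 b5 else 0)
   - (if cnd b2 b3 b4 then phi4 b1 b2 b4 b5 else 0)
   + (if cnd b3 b4 b5 then phi4 b1 b2 b3 b5 else 0)
   - (if cnd b4 b5 1 then phi4 b1 b2 b3 b4 else 0)) == 0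

set_option maxRecDepth 100000 in
theorem cyc_all : ∀ b1 b2 b3 b4 b5 : Fin 6, cyc b1 b2 b3 b4 b5 = true := by
  decide +kernel

end Pool.Agent.MP65cbfa
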