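import Pool.Agent.MP65cbfa.Cocycle

/-!
# Lower bound for the rank of `MH_{5,7}`
-/

set_option autoImplicit false

namespace Pool.Agent.MP65cbfa

open Finsupp

variable {V : Type}

theorem d6_eq_zero : ∀ a b : Fin 6, d6 a b = 0 → a = b := by decide

theorem IsHex.inj {d : V → V → ℕ∞} (hd0 : ∀ x, d x x = 0) {e : Fin 6 → V} (he : IsHex d e) :
    Function.Injective e := by
  intro a b hab
  have h1 := he a b
  rw [hab, hd0] at h1
  exact d6_eq_zero a b (by exact_mod_cast h1.symm)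

theorem sg_mem {d : V → V → ℕ∞} {e : Fin 6 → V} (he : IsHex d e) (hinj : Function.Injective e)
    (c : Fin 6 → Fin 6) (h1 : ∀ i : Fin 5, c i.castSucc ≠ c i.succ)
    (h2 : ∑ i : Fin 5, d6 (c i.castSucc) (c i.succ) = 7) :
    sg e c ∈ MC d 5 7 := by
  unfold sg MC
  apply Finsupp.single_mem_supported
  refine ⟨fun i h => h1 i (hinj h), ?_⟩
  unfold len
  simp only [he _ _]
  rw [← h2]
  push_cast
  rfl

theorem zc_mem {d : V → V → ℕ∞} {e : Fin 6 → V} (he : IsHex d e)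
    (hinj : Function.Injective e) : zc e ∈ cycles d 5 7 := by
  refine ⟨?_, bd_zc he⟩
  unfold zc
  have h : ∀ c : Fin 6 → Fin 6, (∀ i : Fin 5, c i.castSucc ≠ c i.succ) →
      ∑ i : Fin 5, d6 (c i.castSucc) (c i.succ) = 7 → sg e c ∈ MC d 5 7 :=
    fun c h1 h2 => sg_mem he hinj c h1 h2
  refine Submodule.add_mem _ (Submodule.sub_mem _ (Submodule.add_mem _ (Submodule.sub_mem _
    (Submodule.add_mem _ (Submodule.sub_mem _ (Submodule.add_mem _ (Submodule.neg_mem _ ?_) ?_)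
    ?_) ?_) ?_) ?_) ?_) ?_ <;> exact h _ (by decide) (by decide)

theorem Fl_sg (e e' : Fin 6 → V) (ρ : V → Fin 6) (c : Fin 6 → Fin 6) :
    Fl e ρ (sg e' c) = F e ρ (fun j => e' (c j)) := Fl_single _ _ _

theorem Fl_zc_self {e : Fin 6 → V} {ρ : V → Fin 6} (hρe : ∀ a, ρ (e a) = a) :
    Fl e ρ (zc e) = 1 := by
  unfold zc
  simp only [map_add, map_sub, map_neg, Fl_sg]
  simp [F, hρe, phi4]

theorem Fl_zc_ne {e e' : Fin 6 → V} {ρ : V → Fin 6} (h : ¬ (e' 0 = e 0 ∧ e' 1 = e 1)) :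
    Fl e ρ (zc e') = 0 := by
  unfold zc
  simp only [map_add, map_sub, map_neg, Fl_sg]
  simp [F, h]

theorem Fl_boundaries {d : V → V → ℕ∞} (hd : IsMet d) {e : Fin 6 → V} {ρ : V → Fin 6}
    (hρ : ∀ x y, (d6 (ρ x) (ρ y) : ℕ∞) ≤ d x y) (hρe : ∀ a, ρ (e a) = a) :
    boundaries d 5 7 ≤ LinearMap.ker (Fl e ρ) := by
  unfold boundaries
  rw [Submodule.map_le_iff_le_comap]
  unfold MC
  rw [Finsupp.supported_eq_span_single, Submodule.span_le]
  rintro _ ⟨y, hy, rfl⟩
  exact Fl_bd_single hd hρ hρe y hy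

theorem card_le_betti {J : Type} [Finite V] [Fintype J] (d : V → V → ℕ∞)
    (hd : IsMet d) (hd0 : ∀ x, d x x = 0) (e : J → Fin 6 → V) (ρ : J → V → Fin 6)
    (he : ∀ j, IsHex d (e j)) (hρ : ∀ j x y, (d6 (ρ j x) (ρ j y) : ℕ∞) ≤ d x y)
    (hρe : ∀ j a, ρ j (e j a) = a)
    (hinj : ∀ j j', e j 0 = e j' 0 → e j 1 = e j' 1 → j = j') :
    Fintype.card J ≤ betti d 5 7 := by
  classical
  have : Module.Finite ℤ ((Fin 6 → V) →₀ ℤ) := inferInstance
  have : Module.Finite ℤ (MH d 5 7) := inferInstance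
  let v : J → MH d 5 7 := fun j =>
    Submodule.Quotient.mk ⟨zc (e j), zc_mem (he j) ((he j).inj hd0)⟩
  let Ψ : MH d 5 7 →ₗ[ℤ] (J → ℤ) :=
    Submodule.liftQ _ (LinearMap.pi fun j => (Fl (e j) (ρ j)).comp (cycles d 5 7).subtype) (by
      intro c hc
      have hc : (c : (Fin 6 → V) →₀ ℤ) ∈ boundaries d 5 7 := hc
      rw [LinearMap.mem_ker]
      funext j
      exact Fl_boundaries hd (hρ j) (hρe j) hc)
  have hΨ : ∀ j', Ψ (v j') = Pi.single j' 1 := by
    intro j'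
    funext j
    change Fl (e j) (ρ j) (zc (e j')) = _
    by_cases hjj : j = j'
    · subst hjj
      rw [Fl_zc_self (hρe j), Pi.single_eq_same]
    · rw [Pi.single_eq_of_ne hjj]
      apply Fl_zc_ne
      rintro ⟨h1, h2⟩
      exact hjj (hinj j j' h1.symm h2.symm)
  have hli : LinearIndependent ℤ v := by
    apply LinearIndependent.of_comp Ψ
    have : (Ψ ∘ v) = fun j => (Pi.single j 1 : J → ℤ) := by
      funext j'; exact hΨ j'
    rw [this]
    exact Pi.linearIndependent_single_one J ℤ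
  unfold betti
  exact hli.fintype_card_le_finrank

theorem betti_zero_le [Finite V] (d : V → V → ℕ∞) (l : ℕ) : betti d 0 l ≤ Nat.card V := by
  classical
  have : Fintype V := Fintype.ofFinite V
  unfold betti
  calc Module.finrank ℤ (MH d 0 l) ≤ Module.finrank ℤ (cycles d 0 l) :=
        Submodule.finrank_quotient_le _
    _ ≤ Module.finrank ℤ ((Fin 1 → V) →₀ ℤ) := Submodule.finrank_le _
    _ = Nat.card V := by
        rw [Module.finrank_finsupp_self, Fintype.card_fun]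
        simp

end Pool.Agent.MP65cbfa
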